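import Pool.Agent.L7h43.QU.Stm

/-! [STAR] of project QU (helper43). -/

namespace Pool.Agent.L7h69.QU

open MvPolynomial
open Pool.Agent.L7h52.NQ (vec_zero vec_one vec_two)
open Pool.Agent.L7h43.QU (dD dA dB pt0 pull bd S_LINA S_LINB S_ALG S_STAR)

variable {F : Type} [Field F]

theorem pt0_zero : pt0 F 0 = (1 - Polynomial.X) ^ 3 * (2 - Polynomial.X) ^ 2 := by
  unfold Pool.Agent.L7h43.QU.pt0
  rw [vec_zero]
  unfold dD
  ring

theorem pt0_one : pt0 F 1 = Polynomial.X * (1 - Polynomial.X) ^ 3 := by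
  unfold Pool.Agent.L7h43.QU.pt0
  rw [vec_one]
  unfold dA
  ring

theorem pt0_two : pt0 F 2 = Polynomial.X * ((2 - Polynomial.X) ^ 2 * (8 - 5 * Polynomial.X)) := by
  unfold Pool.Agent.L7h43.QU.pt0
  rw [vec_two]
  unfold dB
  ring

theorem all3 {P : ZMod 3 → Prop} (h0 : P 0) (h1 : P 1) (h2 : P 2) : ∀ l, P l := by
  intro l
  fin_cases l
  · exact h0
  · exact h1
  · exact h2

theorem natDegree_pt0 (l : ZMod 3) : (pt0 F l).natDegree ≤ 5 := by
  have h1 : (1 - Polynomial.X : Polynomial F).natDegree ≤ 1 :=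
    (Polynomial.natDegree_sub_le _ _).trans (by
      rw [Polynomial.natDegree_one, Polynomial.natDegree_X]; norm_num)
  have h2 : (2 - Polynomial.X : Polynomial F).natDegree ≤ 1 :=
    (Polynomial.natDegree_sub_le _ _).trans (by
      rw [Polynomial.natDegree_X, Polynomial.natDegree_ofNat]; norm_num)
  have hX : (Polynomial.X : Polynomial F).natDegree ≤ 1 := Polynomial.natDegree_X_le
  have h5 : (8 - 5 * Polynomial.X : Polynomial F).natDegree ≤ 1 := by
    refine (Polynomial.natDegree_sub_le _ _).trans ?_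
    have h := Polynomial.natDegree_mul_le (p := (5 : Polynomial F)) (q := Polynomial.X)
    rw [Polynomial.natDegree_ofNat] at h
    rw [Polynomial.natDegree_ofNat]
    exact max_le (by norm_num) (by omega)
  have p3 : ((1 - Polynomial.X : Polynomial F) ^ 3).natDegree ≤ 3 := by
    refine (Polynomial.natDegree_pow_le).trans ?_
    omega
  have p2 : ((2 - Polynomial.X : Polynomial F) ^ 2).natDegree ≤ 2 := by
    refine (Polynomial.natDegree_pow_le).trans ?_
    omega
  revert l
  refine all3 ?_ ?_ ?_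
  · rw [pt0_zero]
    have := Polynomial.natDegree_mul_le (p := (1 - Polynomial.X : Polynomial F) ^ 3)
      (q := (2 - Polynomial.X) ^ 2)
    omega
  · rw [pt0_one]
    have := Polynomial.natDegree_mul_le (p := (Polynomial.X : Polynomial F))
      (q := (1 - Polynomial.X) ^ 3)
    omega
  · rw [pt0_two]
    have h3 := Polynomial.natDegree_mul_le (p := (2 - Polynomial.X : Polynomial F) ^ 2)
      (q := 8 - 5 * Polynomial.X)
    have := Polynomial.natDegree_mul_le (p := (Polynomial.X : Polynomial F))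
      (q := (2 - Polynomial.X) ^ 2 * (8 - 5 * Polynomial.X))
    omega

/-- Taylor expansion at `1` after removal of a power of `X` -/
theorem expand (G : Polynomial F) (k r : ℕ) (hr : r ≤ 4) (hlow : ∀ i, i < k → G.coeff i = 0)
    (hdeg : G.natDegree ≤ k + r) : ∃ h : Fin 5 → F,
    G = Polynomial.X ^ k * ∑ j : Fin 5, Polynomial.C (h j) * (Polynomial.X - 1) ^ (j : ℕ) ∧
    ∀ j : Fin 5, r < (j : ℕ) → h j = 0 := by
  obtain ⟨H, hH⟩ := Polynomial.X_pow_dvd_iff.2 hlow
  by_cases hG : G = 0
  · refine ⟨fun _ => 0, ?_, fun _ _ => rfl⟩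
    rw [hG]
    simp
  have hH0 : H ≠ 0 := by
    rintro rfl
    exact hG (by rw [hH, mul_zero])
  have hdH : H.natDegree ≤ r := by
    rw [hH, Polynomial.natDegree_mul (pow_ne_zero _ Polynomial.X_ne_zero) hH0,
      Polynomial.natDegree_X_pow] at hdeg
    omega
  refine ⟨fun j => (Polynomial.taylor 1 H).coeff j, ?_, ?_⟩
  · conv_lhs => rw [hH]
    congr 1
    have h1 := Polynomial.sum_taylor_eq H 1
    rw [Polynomial.sum_over_range' _ (fun i => by rw [Polynomial.C_0, zero_mul]) 5
      (by rw [Polynomial.natDegree_taylor]; omega)] at h1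
    rw [Finset.sum_range] at h1
    rw [Polynomial.C_1] at h1
    exact h1.symm
  · intro j hj
    apply Polynomial.coeff_eq_zero_of_natDegree_lt
    rw [Polynomial.natDegree_taylor]
    omega

theorem s_STAR (hA : S_LINA) (hB : S_LINB) (hALG : S_ALG) : S_STAR := by
  intro F _ _ e g hg hG
  have hdeg : (pull g).natDegree ≤ 5 * e := by
    rw [mul_comm]
    exact aeval_natDegree_le g hg.totalDegree_le _ natDegree_pt0
  refine ⟨hdeg, ?_⟩
  have htr := Polynomial.natTrailingDegree_le_natDegree (pull g)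
  have hlow : ∀ i, i < (pull g).natTrailingDegree → (pull g).coeff i = 0 := fun i hi =>
    Polynomial.coeff_eq_zero_of_lt_natTrailingDegree hi
  -- the key: no expansion with a short second factor
  have key : ∀ k r : ℕ, r ≤ 4 → 1 ≤ e → k ≤ (pull g).natTrailingDegree →
      (pull g).natDegree ≤ k + r →
      ((3 ≤ e ∧ k + 4 ≤ 5 * e) ∨ (e = 2 ∧ k + 3 ≤ 10 ∧ r ≤ 3) ∨ (e = 1 ∧ k + 1 ≤ 5 ∧ r ≤ 1)) →
      False := by
    intro k r hr he hk hd hc
    obtain ⟨h, hh1, hh2⟩ := expand (pull g) k r hr (fun i hi => hlow i (lt_of_lt_of_le hi hk)) hd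
    have hA' := hA F e k g h he hg hh1
    have hB' := hB F e k g h he hg hh1
    have h0 := hALG F e k h hA'.1 hA'.2 hB' (by
      rcases hc with hc | hc | hc
      · exact Or.inl hc
      · refine Or.inr (Or.inl ⟨hc.1, hc.2.1, hh2 4 ?_⟩)
        change r < 4
        omega
      · refine Or.inr (Or.inr ⟨hc.1, hc.2.1, hh2 2 ?_, hh2 3 ?_, hh2 4 ?_⟩)
        · change r < 2
          omega
        · change r < 3
          omega
        · change r < 4
          omega)
    apply hG
    rw [hh1]
    have : ∑ j : Fin 5, Polynomial.C (h j) * (Polynomial.X - 1 : Polynomial F) ^ (j : ℕ) = 0 :=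
      Finset.sum_eq_zero (fun j _ => by rw [h0 j, Polynomial.C_0, zero_mul])
    rw [this, mul_zero]
  by_contra hcon
  unfold Pool.Agent.L7h43.QU.bd at hcon
  split_ifs at hcon with he0 he1 he2
  · subst he0
    omega
  · subst he1
    rcases le_or_gt (pull g).natTrailingDegree 4 with h | h
    · exact key _ 1 (by omega) (by omega) le_rfl (by omega) (Or.inr (Or.inr ⟨rfl, by omega, le_rfl⟩))
    · exact key 4 1 (by omega) (by omega) (by omega) (by omega)
        (Or.inr (Or.inr ⟨rfl, by omega, le_rfl⟩))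
  · subst he2
    rcases le_or_gt (pull g).natTrailingDegree 7 with h | h
    · exact key _ 3 (by omega) (by omega) le_rfl (by omega) (Or.inr (Or.inl ⟨rfl, by omega, le_rfl⟩))
    · exact key 7 3 (by omega) (by omega) (by omega) (by omega)
        (Or.inr (Or.inl ⟨rfl, by omega, le_rfl⟩))
  · rcases le_or_gt (pull g).natTrailingDegree (5 * e - 4) with h | h
    · exact key _ 4 (by omega) (by omega) le_rfl (by omega) (Or.inl ⟨by omega, by omega⟩)
    · exact key (5 * e - 4) 4 (by omega) (by omega) (by omega) (by omega)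
        (Or.inl ⟨by omega, by omega⟩)

end Pool.Agent.L7h69.QU
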